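import Mathlib

/-!
There are no `O(1)`-local mappings from dictator to parity with `O(1)`-Lipschitz inverses.
-/

namespace Pool.Agent.Results.MP_5e3b67_co.NoLocalLipschitz

/-- The cube `{0,1}^(n+1)`; its first coordinate is `x 0`. -/
abbrev Cube (n : ℕ) := Fin (n + 1) → ZMod 2

/-- The dictator function. -/
def DIC {n : ℕ} (x : Cube n) : ZMod 2 := x 0

/-- The parity function. -/
def XOR {n : ℕ} (x : Cube n) : ZMod 2 := ∑ i, x i

/-- The bijection `φ` is a mapping from dictator to parity. -/
def IsMapping {n : ℕ} (φ : Equiv.Perm (Cube n)) : Prop := ∀ x, XOR (φ x) = DIC x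

/-- `φ` is `K`-local. -/
def IsLocal {n : ℕ} (K : ℕ) (φ : Cube n → Cube n) : Prop :=
  ∀ i, ∃ S : Finset (Fin (n + 1)), S.card ≤ K ∧
    ∀ x y : Cube n, (∀ j ∈ S, x j = y j) → φ x i = φ y i

/-- `ψ` is `L`-Lipschitz for the Hamming distance. -/
def IsLip {n : ℕ} (L : ℕ) (ψ : Cube n → Cube n) : Prop :=
  ∀ x y : Cube n, hammingDist (ψ x) (ψ y) ≤ L * hammingDist x y

/-- The inverse thresholds. -/
def q (K L : ℕ) : ℕ → ℕ
  | 0 => 1
  | k + 1 => 4 * (K + 1) * 2 ^ (L * q K L k) * q K L k

theorem q_pos (K L k : ℕ) : 1 ≤ q K L k := by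
  induction k with
  | zero => exact le_refl _
  | succ k ih =>
    unfold q
    have h1 : 1 ≤ 2 ^ (L * q K L k) := Nat.one_le_two_pow
    have h2 : 1 ≤ 4 * (K + 1) := by omega
    exact Nat.mul_pos (Nat.mul_pos h2 h1) ih

theorem q_succ_ge (K L k : ℕ) : 4 * (K + 1) * 2 ^ (L * q K L k) ≤ q K L (k + 1) := by
  conv_rhs => unfold q
  exact Nat.le_mul_of_pos_right _ (q_pos K L k)

theorem q_mono (K L : ℕ) : Monotone (q K L) := by
  refine monotone_nat_of_le_succ fun k => ?_
  conv_rhs => unfold q
  refine Nat.le_mul_of_pos_left _ ?_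
  exact Nat.mul_pos (by omega) (Nat.pow_pos (by norm_num))

section

variable {n : ℕ} {K L : ℕ} {φ : Equiv.Perm (Cube n)}

/-- The preimage of `φ 0 + e_i`. -/
def z (φ : Equiv.Perm (Cube n)) (i : Fin (n + 1)) : Cube n := φ.symm (φ 0 + Pi.single i 1)

/-- The support of `z i`. -/
def T (φ : Equiv.Perm (Cube n)) (i : Fin (n + 1)) : Finset (Fin (n + 1)) :=
  Finset.univ.filter fun a => z φ i a ≠ 0

theorem mem_T {i a : Fin (n + 1)} : a ∈ T φ i ↔ z φ i a ≠ 0 := by simp [T]

theorem card_T (hL : IsLip L φ.symm) (i : Fin (n + 1)) : (T φ i).card ≤ L := by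
  have h := hL (φ 0 + Pi.single i 1) (φ 0)
  rw [Equiv.symm_apply_apply] at h
  have h1 : hammingDist (φ 0 + Pi.single i 1) (φ 0) = 1 := by
    unfold hammingDist
    rw [Finset.card_eq_one]
    refine ⟨i, ?_⟩
    ext j
    simp only [Finset.mem_filter, Finset.mem_univ, true_and, Finset.mem_singleton, Pi.add_apply]
    constructor
    · intro hne
      by_contra hij
      apply hne
      rw [Pi.single_eq_of_ne hij, add_zero]
    · rintro rfl
      simp
  rw [h1, mul_one] at h
  exact h

theorem zero_mem_T (hM : IsMapping φ) (i : Fin (n + 1)) : 0 ∈ T φ i := by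
  rw [mem_T]
  have h1 := hM (z φ i)
  have h0 := hM 0
  unfold z at h1
  rw [Equiv.apply_symm_apply] at h1
  have h2 : XOR (φ 0 + Pi.single i 1) = XOR (φ 0) + 1 := by
    unfold XOR
    simp only [Pi.add_apply]
    rw [Finset.sum_add_distrib, Finset.sum_pi_single']
    simp
  rw [h2, h0] at h1
  unfold DIC at h1
  intro h3
  unfold z at h3
  rw [h3] at h1
  simp at h1

/-- The number of `i` with `a ∈ T i`. -/
def s (φ : Equiv.Perm (Cube n)) (a : Fin (n + 1)) : ℕ :=
  (Finset.univ.filter fun i => a ∈ T φ i).card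

theorem sum_s (hL : IsLip L φ.symm) : ∑ a, s φ a ≤ L * (n + 1) := by
  have h1 : ∑ a, s φ a = ∑ i, (T φ i).card := by
    unfold s
    simp_rw [Finset.card_filter]
    rw [Finset.sum_comm]
    refine Finset.sum_congr rfl fun i _ => ?_
    rw [← Finset.card_filter]
    congr 1
    ext a
    simp
  rw [h1]
  calc ∑ i, (T φ i).card ≤ ∑ _i : Fin (n + 1), L := Finset.sum_le_sum fun i _ => card_T hL i
    _ = L * (n + 1) := by
      rw [Finset.sum_const, Finset.card_univ, Fintype.card_fin, smul_eq_mul, mul_comm]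

/-- The heavy coordinates at level `k`. -/
def D (φ : Equiv.Perm (Cube n)) (K L k : ℕ) : Finset (Fin (n + 1)) :=
  Finset.univ.filter fun a => n + 1 ≤ q K L k * s φ a

/-- The coordinates of the band `k`. -/
def Band (φ : Equiv.Perm (Cube n)) (K L k : ℕ) : Finset (Fin (n + 1)) :=
  Finset.univ.filter fun a => n + 1 ≤ q K L (k + 1) * s φ a ∧ q K L k * s φ a < n + 1

theorem card_D (hL : IsLip L φ.symm) (k : ℕ) : (D φ K L k).card ≤ L * q K L k := by
  have h1 : (D φ K L k).card * (n + 1) ≤ q K L k * (L * (n + 1)) := by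
    calc (D φ K L k).card * (n + 1) = ∑ _a ∈ D φ K L k, (n + 1) := by
          rw [Finset.sum_const, smul_eq_mul]
      _ ≤ ∑ a ∈ D φ K L k, q K L k * s φ a :=
          Finset.sum_le_sum fun a ha => (Finset.mem_filter.1 ha).2
      _ ≤ ∑ a, q K L k * s φ a :=
          Finset.sum_le_sum_of_subset (Finset.subset_univ _)
      _ = q K L k * ∑ a, s φ a := by rw [Finset.mul_sum]
      _ ≤ q K L k * (L * (n + 1)) := Nat.mul_le_mul_left _ (sum_s hL)
  have h2 : (D φ K L k).card * (n + 1) ≤ (L * q K L k) * (n + 1) := by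
    calc _ ≤ _ := h1
      _ = _ := by ring
  exact Nat.le_of_mul_le_mul_right h2 (Nat.succ_pos n)

/-- Some band among the first `2 L + 1` is light. -/
theorem exists_band (hL : IsLip L φ.symm) :
    ∃ k < 2 * L + 1, 2 * ∑ a ∈ Band φ K L k, s φ a ≤ n + 1 := by
  by_contra hcon
  push Not at hcon
  have hdisj : ((Finset.range (2 * L + 1) : Finset ℕ) : Set ℕ).PairwiseDisjoint
      (Band φ K L) := by
    have key : ∀ k l, k < l → Disjoint (Band φ K L k) (Band φ K L l) := by
      intro k l hkl
      rw [Finset.disjoint_left]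
      intro a ha hb
      have h1 := (Finset.mem_filter.1 ha).2.1
      have h2 := (Finset.mem_filter.1 hb).2.2
      have h3 : q K L (k + 1) * s φ a ≤ q K L l * s φ a :=
        Nat.mul_le_mul_right _ (q_mono K L hkl)
      omega
    intro k _ l _ hkl
    rcases lt_or_gt_of_ne hkl with h | h
    · exact key k l h
    · exact (key l k h).symm
  have h1 : ∑ k ∈ Finset.range (2 * L + 1), ∑ a ∈ Band φ K L k, s φ a ≤ L * (n + 1) := by
    rw [← Finset.sum_biUnion hdisj]
    exact (Finset.sum_le_sum_of_subset (Finset.subset_univ _)).trans (sum_s hL)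
  have h2 : (2 * L + 1) * (n + 1) ≤
      ∑ k ∈ Finset.range (2 * L + 1), 2 * ∑ a ∈ Band φ K L k, s φ a := by
    calc (2 * L + 1) * (n + 1) = ∑ _k ∈ Finset.range (2 * L + 1), (n + 1) := by
          rw [Finset.sum_const, Finset.card_range, smul_eq_mul]
      _ ≤ _ := Finset.sum_le_sum fun k hk => (hcon k (Finset.mem_range.1 hk)).le
  rw [← Finset.mul_sum] at h2
  have h3 : (2 * L + 1) * (n + 1) ≤ 2 * (L * (n + 1)) := h2.trans (Nat.mul_le_mul_left _ h1)
  nlinarith

/-- The main argument. -/
theorem main (hM : IsMapping φ) (hK : IsLocal K φ) (hL : IsLip L φ.symm)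
    (hn : 4 * 2 ^ (L * q K L (2 * L)) < n + 1) : False := by
  classical
  obtain ⟨k, hk, hband⟩ := exists_band (K := K) hL
  obtain ⟨M, hMdef⟩ : ∃ M, M = 2 ^ (L * q K L k) := ⟨_, rfl⟩
  have hMpos : 1 ≤ M := by rw [hMdef]; exact Nat.one_le_two_pow
  have hMn : 4 * M < n + 1 := by
    refine lt_of_le_of_lt ?_ hn
    rw [hMdef]
    exact Nat.mul_le_mul_left _ (Nat.pow_le_pow_right (by norm_num)
      (Nat.mul_le_mul_left _ (q_mono K L (by omega))))
  -- the indices avoiding the band
  set I := Finset.univ.filter fun i => Disjoint (T φ i) (Band φ K L k) with hI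
  have hIcard : n + 1 ≤ 2 * I.card := by
    have h1 : (Finset.univ.filter fun i => ¬ Disjoint (T φ i) (Band φ K L k)).card ≤
        ∑ a ∈ Band φ K L k, s φ a := by
      have h2 : (Finset.univ.filter fun i => ¬ Disjoint (T φ i) (Band φ K L k)) ⊆
          (Band φ K L k).biUnion fun a => Finset.univ.filter fun i => a ∈ T φ i := by
        intro i hi
        rw [Finset.mem_filter, Finset.not_disjoint_iff] at hi
        obtain ⟨_, a, ha, hb⟩ := hi
        rw [Finset.mem_biUnion]
        exact ⟨a, hb, by simp [ha]⟩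
      exact (Finset.card_le_card h2).trans Finset.card_biUnion_le
    have h3 : I.card +
        (Finset.univ.filter fun i => ¬ Disjoint (T φ i) (Band φ K L k)).card = n + 1 := by
      rw [hI, Finset.card_filter_add_card_filter_not, Finset.card_univ, Fintype.card_fin]
    omega
  -- pigeonhole on the types
  obtain ⟨τ, hτ, hclass⟩ : ∃ τ ∈ (D φ K L k).powerset,
      I.card ≤ M * (I.filter fun i => T φ i ∩ D φ K L k = τ).card := by
    by_contra hcon
    push Not at hcon
    have hmaps : ∀ i ∈ I, T φ i ∩ D φ K L k ∈ (D φ K L k).powerset := fun i _ =>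
      Finset.mem_powerset.2 Finset.inter_subset_right
    have h1 := Finset.card_eq_sum_card_fiberwise hmaps
    have hMge : (D φ K L k).powerset.card ≤ M := by
      rw [Finset.card_powerset, hMdef]
      exact Nat.pow_le_pow_right (by norm_num) (card_D hL k)
    have hpos : 0 < (D φ K L k).powerset.card := by
      rw [Finset.card_powerset]; exact Nat.pow_pos (by norm_num)
    have h2 : M * I.card < (D φ K L k).powerset.card * I.card := by
      calc M * I.card = ∑ τ ∈ (D φ K L k).powerset,
            M * (I.filter fun i => T φ i ∩ D φ K L k = τ).card := by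
            rw [← Finset.mul_sum, ← h1]
        _ < ∑ _τ ∈ (D φ K L k).powerset, I.card :=
            Finset.sum_lt_sum_of_nonempty (Finset.card_pos.1 hpos) hcon
        _ = _ := by rw [Finset.sum_const, smul_eq_mul]
    have h3 := Nat.mul_le_mul_right I.card hMge
    omega
  set c := (I.filter fun i => T φ i ∩ D φ K L k = τ).card with hc
  have hc2 : n + 1 ≤ 2 * (M * c) := by omega
  have hc3 : 2 < c := by
    by_contra h
    push Not at h
    have : M * c ≤ M * 2 := Nat.mul_le_mul_left _ h
    omega
  -- the candidate vector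
  obtain ⟨w, hw⟩ : ∃ w : Cube n, w = fun a => if a ∈ τ then 1 else 0 := ⟨_, rfl⟩
  have hphiw : φ w = φ 0 := by
    funext j
    obtain ⟨S, hS, hSj⟩ := hK j
    -- an index of the class avoiding `S`
    obtain ⟨i, hiI, hij, hiS⟩ : ∃ i ∈ I.filter fun i => T φ i ∩ D φ K L k = τ,
        i ≠ j ∧ ∀ a ∈ S, a ∈ T φ i → a ∈ D φ K L k := by
      by_contra hcon
      push Not at hcon
      set S' := S.filter fun a => q K L (k + 1) * s φ a < n + 1 with hS'
      have hsub : (I.filter fun i => T φ i ∩ D φ K L k = τ) ⊆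
          {j} ∪ S'.biUnion fun a => Finset.univ.filter fun i => a ∈ T φ i := by
        intro i hi
        by_cases hij : i = j
        · exact Finset.mem_union_left _ (by simp [hij])
        · obtain ⟨a, haS, haT, haD⟩ := hcon i hi hij
          apply Finset.mem_union_right
          rw [Finset.mem_biUnion]
          refine ⟨a, ?_, by simp [haT]⟩
          rw [hS', Finset.mem_filter]
          refine ⟨haS, ?_⟩
          by_contra hlt
          push Not at hlt
          have hiI := (Finset.mem_filter.1 (Finset.mem_filter.1 hi).1).2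
          have haB : a ∈ Band φ K L k := by
            rw [Band, Finset.mem_filter]
            refine ⟨Finset.mem_univ _, hlt, ?_⟩
            by_contra h
            push Not at h
            exact haD (by rw [D, Finset.mem_filter]; exact ⟨Finset.mem_univ _, h⟩)
          exact (Finset.disjoint_left.1 hiI haT) haB
      have h1 : c ≤ 1 + ∑ a ∈ S', s φ a := by
        refine (Finset.card_le_card hsub).trans ((Finset.card_union_le _ _).trans ?_)
        rw [Finset.card_singleton]
        exact Nat.add_le_add_left Finset.card_biUnion_le _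
      have h2 : q K L (k + 1) * ∑ a ∈ S', s φ a ≤ (K + 1) * (n + 1) := by
        rw [Finset.mul_sum]
        calc ∑ a ∈ S', q K L (k + 1) * s φ a ≤ ∑ _a ∈ S', (n + 1) :=
              Finset.sum_le_sum fun a ha => (Finset.mem_filter.1 ha).2.le
          _ = S'.card * (n + 1) := by rw [Finset.sum_const, smul_eq_mul]
          _ ≤ (K + 1) * (n + 1) := by
              refine Nat.mul_le_mul_right _ ?_
              have := Finset.card_le_card (Finset.filter_subset
                (fun a => q K L (k + 1) * s φ a < n + 1) S)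
              rw [← hS'] at this
              omega
      have h3 : 4 * (K + 1) * M * (c - 1) ≤ (K + 1) * (n + 1) := by
        calc 4 * (K + 1) * M * (c - 1) ≤ q K L (k + 1) * (c - 1) := by
              refine Nat.mul_le_mul_right _ ?_
              rw [hMdef]
              exact q_succ_ge K L k
          _ ≤ q K L (k + 1) * ∑ a ∈ S', s φ a := Nat.mul_le_mul_left _ (by omega)
          _ ≤ _ := h2
      have h4 : 4 * (M * (c - 1)) ≤ n + 1 := by
        have h5 : (K + 1) * (4 * (M * (c - 1))) ≤ (K + 1) * (n + 1) := by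
          calc _ = 4 * (K + 1) * M * (c - 1) := by ring
            _ ≤ _ := h3
        exact Nat.le_of_mul_le_mul_left h5 (Nat.succ_pos K)
      have h5 : 4 * (M * (c - 1)) ≤ 2 * (M * c) := h4.trans hc2
      have h6 : M * (c - 1) + M = M * c := by
        obtain ⟨d, hd⟩ : ∃ d, c = d + 1 := ⟨c - 1, by omega⟩
        rw [hd, Nat.add_sub_cancel]; ring
      have h7 : M * 3 ≤ M * c := Nat.mul_le_mul_left _ (by omega)
      omega
    have hiτ := (Finset.mem_filter.1 hiI).2
    have hagree : ∀ a ∈ S, w a = z φ i a := by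
      intro a ha
      rw [hw]
      simp only
      by_cases haT : a ∈ T φ i
      · have haD := hiS a ha haT
        rw [if_pos (by rw [← hiτ]; exact Finset.mem_inter.2 ⟨haT, haD⟩)]
        have hne := mem_T.1 haT
        generalize z φ i a = t at hne
        revert t; decide
      · have haT' : z φ i a = 0 := by
          by_contra h
          exact haT (mem_T.2 h)
        rw [if_neg, haT']
        intro h
        rw [← hiτ] at h
        exact haT (Finset.mem_inter.1 h).1
    rw [hSj w (z φ i) hagree]
    unfold z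
    rw [Equiv.apply_symm_apply, Pi.add_apply, Pi.single_eq_of_ne hij.symm, add_zero]
  have hw0 : w = 0 := φ.injective hphiw
  -- but the first coordinate belongs to the type
  have h0τ : (0 : Fin (n + 1)) ∈ τ := by
    obtain ⟨i, hi⟩ : (I.filter fun i => T φ i ∩ D φ K L k = τ).Nonempty := by
      rw [← Finset.card_pos]; omega
    rw [← (Finset.mem_filter.1 hi).2]
    refine Finset.mem_inter.2 ⟨zero_mem_T hM i, ?_⟩
    rw [D, Finset.mem_filter]
    refine ⟨Finset.mem_univ _, ?_⟩
    have h1 : s φ 0 = n + 1 := by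
      unfold s
      rw [Finset.filter_true_of_mem (fun i _ => zero_mem_T hM i), Finset.card_univ,
        Fintype.card_fin]
    rw [h1]
    exact Nat.le_mul_of_pos_left _ (q_pos K L k)
  have := congrFun hw0 0
  rw [hw] at this
  simp [h0τ] at this

end

/-- For all constants `K, L` and all large `n` no `K`-local mapping from dictator to parity on
`{0,1}^(n+1)` has an `L`-Lipschitz inverse. -/
theorem result : ∀ K L : ℕ, ∃ n₀ : ℕ, ∀ n ≥ n₀, ∀ φ : Equiv.Perm (Cube n),
    IsMapping φ → IsLocal K φ → ¬ IsLip L φ.symm := by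
  intro K L
  exact ⟨4 * 2 ^ (L * q K L (2 * L)), fun n hn φ hM hK hL => main hM hK hL (by omega)⟩

end Pool.Agent.Results.MP_5e3b67_co.NoLocalLipschitz
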